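import Pool.Agent.helper48.TH.Spec

set_option autoImplicit false

namespace TP.TW

open DP MeasureTheory Finset

theorem LSU_one (u s a : ℝ) (hu : 0 ≤ u) (hs : 0 ≤ s) (ha : 0 ≤ a)
    (h : 0 < u → 0 < s ∧ 0 < a) :
    u * Real.log a + u - a * s / 2 ≤ u * Real.log u - u * Real.log (s / 2) := by
  rcases hu.eq_or_lt with h0 | h0
  · rw [← h0]
    have := mul_nonneg ha hs
    linarith
  · obtain ⟨h1, h2⟩ := h h0
    have h3 : 0 < a * (s / 2) / u := by positivity
    have h4 := Real.log_le_sub_one_of_pos h3
    rw [Real.log_div (by positivity) (by positivity), Real.log_mul (by positivity) (by positivity)] at h4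
    have h5 := mul_le_mul_of_nonneg_left h4 h0.le
    have h6 : u * (a * (s / 2) / u - 1) = a * s / 2 - u := by
      field_simp
    rw [h6] at h5
    linarith

theorem LSU : LSU_stmt := by
  constructor
  · intro u v hu hv
    have h1 := LSU_one u (u + v) 1 hu (by linarith) zero_le_one (fun h => ⟨by linarith, one_pos⟩)
    have h2 := LSU_one v (u + v) 1 hv (by linarith) zero_le_one (fun h => ⟨by linarith, one_pos⟩)
    rw [Real.log_one] at h1 h2
    unfold e2 ph
    linarith
  · intro α s u v hu hv
    have hU : 0 ≤ ∑ j ∈ s, u j := sum_nonneg hu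
    have hW : 0 ≤ ∑ j ∈ s, v j := sum_nonneg hv
    obtain ⟨U, hUe⟩ : ∃ U, U = ∑ j ∈ s, u j := ⟨_, rfl⟩
    obtain ⟨W, hWe⟩ : ∃ W, W = ∑ j ∈ s, v j := ⟨_, rfl⟩
    rw [← hUe, ← hWe]
    rw [← hUe] at hU
    rw [← hWe] at hW
    have hUj : ∀ j ∈ s, u j ≤ U := fun j hj => by
      rw [hUe]
      exact single_le_sum hu hj
    have hWj : ∀ j ∈ s, v j ≤ W := fun j hj => by
      rw [hWe]
      exact single_le_sum hv hj
    have hterm : ∀ j ∈ s, u j * Real.log (2 * U / (U + W)) + u j - 2 * U / (U + W) * (u j + v j) / 2 +
        (v j * Real.log (2 * W / (U + W)) + v j - 2 * W / (U + W) * (u j + v j) / 2) ≤ e2 (u j) (v j) := by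
      intro j hj
      have a1 := hu j hj
      have a2 := hv j hj
      have a3 := hUj j hj
      have a4 := hWj j hj
      have h1 := LSU_one (u j) (u j + v j) (2 * U / (U + W)) a1 (by linarith) (by positivity)
        (fun h => ⟨by linarith, by
          have : 0 < U := by linarith
          have : 0 < U + W := by linarith
          positivity⟩)
      have h2 := LSU_one (v j) (u j + v j) (2 * W / (U + W)) a2 (by linarith) (by positivity)
        (fun h => ⟨by linarith, by
          have : 0 < W := by linarith
          have : 0 < U + W := by linarith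
          positivity⟩)
      unfold e2 ph
      linarith
    have hsum := sum_le_sum hterm
    refine le_trans (le_of_eq ?_) hsum
    have e1 : ∑ j ∈ s, (u j * Real.log (2 * U / (U + W)) + u j - 2 * U / (U + W) * (u j + v j) / 2 +
        (v j * Real.log (2 * W / (U + W)) + v j - 2 * W / (U + W) * (u j + v j) / 2)) =
        (U * Real.log (2 * U / (U + W)) + U - 2 * U / (U + W) * (U + W) / 2) +
        (W * Real.log (2 * W / (U + W)) + W - 2 * W / (U + W) * (U + W) / 2) := by
      simp only [sum_add_distrib, sum_sub_distrib, ← sum_mul, ← mul_sum, ← sum_div, ← hUe, ← hWe]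
    rw [e1]
    rcases (add_nonneg hU hW).eq_or_lt with h0 | h0
    · have hU0 : U = 0 := by linarith
      have hW0 : W = 0 := by linarith
      rw [hU0, hW0]
      simp [e2, ph]
    · have e2' : 2 * U / (U + W) * (U + W) = 2 * U := div_mul_cancel₀ _ (by positivity)
      have e3' : 2 * W / (U + W) * (U + W) = 2 * W := div_mul_cancel₀ _ (by positivity)
      rw [e2', e3']
      have f1 : ∀ x : ℝ, 0 ≤ x → x * Real.log (2 * x / (U + W)) =
          x * Real.log x - x * Real.log ((U + W) / 2) := by
        intro x hx
        rcases hx.eq_or_lt with hx0 | hx0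
        · rw [← hx0]
          simp
        · have : 2 * x / (U + W) = x / ((U + W) / 2) := by
            field_simp
          rw [this, Real.log_div (by positivity) (by positivity)]
          ring
      rw [f1 U hU, f1 W hW]
      unfold e2 ph
      ring

end TP.TW
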